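import Pool.Agent.Helper17.CR.Stmts

/-!
# The trace of a block circulant matrix at the generator
-/

set_option autoImplicit false

universe u

namespace Pool.Agent.Helper85.CR

open Pool.Agent.Helper17.CR Finset

theorem core0_char (m : ℕ) [NeZero m] : ∃ ψ : AddChar (ZMod m) OO, ψ.IsPrimitive := by
  have h := Complex.isPrimitiveRoot_exp m (NeZero.ne m)
  have hint := h.isIntegral (Nat.pos_of_ne_zero (NeZero.ne m))
  have hζ : IsPrimitiveRoot (⟨_, hint⟩ : OO) m :=
    IsPrimitiveRoot.of_map_of_injective (f := (algebraMap OO ℂ)) h Subtype.val_injective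
  exact ⟨_, AddChar.zmodChar_primitive_of_primitive_root m hζ⟩

theorem core0_circ {T : Type u} {R : Type} (m : ℕ) [NeZero m] (A : Matrix (T × ZMod m) (T × ZMod m) R)
    (hA : Circ m A) (i : ZMod m) (t t' : T) (d d' : ZMod m) :
    A (t, d + i) (t', d' + i) = A (t, d) (t', d') := by
  have h : ∀ (j : ℕ) (d d' : ZMod m), A (t, d + j) (t', d' + j) = A (t, d) (t', d') := by
    intro j
    induction j with
    | zero => intro d d'; simp
    | succ j ih =>
      intro d d'
      have h1 := hA (t, d + j) (t', d' + j)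
      rw [Nat.cast_succ, ← add_assoc, ← add_assoc]
      exact h1.trans (ih d d')
  have h2 := h i.val d d'
  rwa [ZMod.natCast_zmod_val] at h2

theorem core0_pow (hMULT : ST_MULT.{u}) {T : Type u} [Fintype T] [DecidableEq T] {R : Type} [CommRing R]
    (m : ℕ) [NeZero m] (χ : AddChar (ZMod m) R) (A : Matrix (T × ZMod m) (T × ZMod m) R) (hA : Circ m A)
    (L : ℕ) : hat m (A ^ L) χ = (hat m A χ) ^ L := by
  induction L with
  | zero =>
    rw [pow_zero, pow_zero]
    exact (hMULT T R m χ A A hA).2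
  | succ L ih => rw [pow_succ, (hMULT T R m χ (A ^ L) A hA).1, ih, pow_succ]

theorem core0_lin {T : Type u} [Fintype T] [DecidableEq T] {R : Type} [CommRing R]
    (m : ℕ) [NeZero m] (χ : AddChar (ZMod m) R) (a b : R) :
    hat m (a • (1 : Matrix (T × ZMod m) (T × ZMod m) R) + b • JJ (T × ZMod m) R) χ =
      a • hat m (1 : Matrix (T × ZMod m) (T × ZMod m) R) χ + (b * ∑ d, χ d) • JJ T R := by
  refine Matrix.ext fun t t' => ?_
  rw [Matrix.add_apply, Matrix.smul_apply, Matrix.smul_apply]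
  show ∑ d : ZMod m, (a • (1 : Matrix (T × ZMod m) (T × ZMod m) R) + b • JJ (T × ZMod m) R) (t, 0) (t', d) * χ d =
    a • (∑ d : ZMod m, (1 : Matrix (T × ZMod m) (T × ZMod m) R) (t, 0) (t', d) * χ d) + (b * ∑ d, χ d) • (1 : R)
  rw [smul_eq_mul, smul_eq_mul, mul_one, Finset.mul_sum, Finset.mul_sum, ← Finset.sum_add_distrib]
  refine Finset.sum_congr rfl fun d _ => ?_
  rw [Matrix.add_apply, Matrix.smul_apply, Matrix.smul_apply]
  show (a • (1 : Matrix (T × ZMod m) (T × ZMod m) R) (t, 0) (t', d) + b • (1 : R)) * χ d = _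
  rw [smul_eq_mul, smul_eq_mul]
  ring

theorem core0_phi {F : Type} [Field F] (q e m : ℕ) [NeZero m] [CharP F q] (hq : q.Prime) (hm : m = q ^ e)
    (φ : OO →+* F) (ψ : AddChar (ZMod m) OO) (x : ZMod m) : φ (ψ x) = 1 := by
  have : Fact q.Prime := ⟨hq⟩
  have h1 : (ψ x) ^ m = 1 := by
    rw [← AddChar.map_nsmul_eq_pow, nsmul_eq_mul, ZMod.natCast_self, zero_mul, AddChar.map_zero_eq_one]
  have h2 : (φ (ψ x) - 1) ^ (q ^ e) = 0 := by
    rw [sub_pow_char_pow, ← hm, ← map_pow, h1, map_one, one_pow, sub_self]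
  exact sub_eq_zero.1 (pow_eq_zero_iff (pow_pos hq.pos e).ne' |>.1 h2)

theorem st_CORE0 (hPHI : ST_PHI) (hMULT : ST_MULT.{u}) (hINJ : ST_INJ) (hTR : ST_TR.{u}) : ST_CORE0.{u} := by
  intro T _ _ _ q e m _ hq hq2 hm h1m A n k mu c hn hqn hA hrow hcol hpow
  obtain ⟨F, _, φ, _⟩ := hPHI q hq
  obtain ⟨ψ, hψ⟩ := core0_char m
  -- the matrices
  obtain ⟨Ao, hAo⟩ : ∃ Ao : Matrix (T × ZMod m) (T × ZMod m) OO, ∀ x y, Ao x y = ((A x y : ℤ) : OO) :=
    ⟨fun x y => ((A x y : ℤ) : OO), fun _ _ => rfl⟩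
  have hAoc : Circ m Ao := fun x y => by rw [hAo, hAo, hA]
  have hAopow : Ao ^ (2 ^ (c + 1)) = ((n : OO) ^ (2 ^ c)) • (1 : Matrix (T × ZMod m) (T × ZMod m) OO) +
      (mu : OO) • JJ (T × ZMod m) OO := by
    have h1 : Ao = (Int.castRingHom OO).mapMatrix A := by
      refine Matrix.ext fun x y => ?_
      rw [hAo]
      rfl
    rw [h1, ← map_pow, hpow]
    refine Matrix.ext fun x y => ?_
    rw [RingHom.mapMatrix_apply, Matrix.map_apply, Matrix.add_apply, Matrix.add_apply, Matrix.smul_apply,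
      Matrix.smul_apply, Matrix.smul_apply, Matrix.smul_apply]
    show (Int.castRingHom OO) (n ^ 2 ^ c • (1 : Matrix (T × ZMod m) (T × ZMod m) ℤ) x y + mu • (1 : ℤ)) =
      (n : OO) ^ 2 ^ c • (1 : Matrix (T × ZMod m) (T × ZMod m) OO) x y + (mu : OO) • (1 : OO)
    rw [Matrix.one_apply, Matrix.one_apply]
    split_ifs <;> simp
  obtain ⟨B, hB⟩ : ∃ B : ZMod m → Matrix T T OO, ∀ j, B j = hat m Ao (AddChar.mulShift ψ j) := ⟨_, fun _ => rfl⟩
  have hBe : ∀ j t t', B j t t' = ∑ d : ZMod m, ((A (t, 0) (t', d) : ℤ) : OO) * ψ (j * d) := by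
    intro j t t'
    rw [hB]
    show ∑ d : ZMod m, Ao (t, 0) (t', d) * AddChar.mulShift ψ j d = _
    refine Finset.sum_congr rfl fun d _ => ?_
    rw [hAo, AddChar.mulShift_apply]
  have hB0e : ∀ t t', B 0 t t' = ∑ d : ZMod m, ((A (t, 0) (t', d) : ℤ) : OO) := by
    intro t t'
    rw [hBe]
    refine Finset.sum_congr rfl fun d _ => ?_
    rw [zero_mul, AddChar.map_zero_eq_one, mul_one]
  have hmap : ∀ j, (B 0).map φ = (B j).map φ := by
    intro j
    refine Matrix.ext fun t t' => ?_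
    rw [Matrix.map_apply, Matrix.map_apply, hB0e, hBe, map_sum, map_sum]
    refine Finset.sum_congr rfl fun d _ => ?_
    rw [map_mul, core0_phi q e m hq hm φ ψ, mul_one]
  have hBpow : ∀ j, B j ^ (2 ^ (c + 1)) = ((n : OO) ^ (2 ^ c)) • (1 : Matrix T T OO) +
      ((mu : OO) * ∑ d, ψ (j * d)) • JJ T OO := by
    intro j
    rw [hB, ← core0_pow hMULT m _ Ao hAoc, hAopow, core0_lin, (hMULT T OO m _ Ao Ao hAoc).2]
    simp only [AddChar.mulShift_apply]
  have hsum : ∀ b : ZMod m, ∑ x : ZMod m, ψ (x * b) = if b = 0 then ((m : ℕ) : OO) else 0 := by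
    intro b
    rw [AddChar.sum_mulShift b hψ, ZMod.card]
    split_ifs <;> simp
  have hsum' : ∀ b : ZMod m, ∑ x : ZMod m, ψ (b * x) = if b = 0 then ((m : ℕ) : OO) else 0 := by
    intro b
    rw [← hsum b]
    exact Finset.sum_congr rfl fun x _ => by rw [mul_comm]
  have hrowB : ∀ t, ∑ t', B 0 t t' = (k : OO) := by
    intro t
    have h1 := hrow (t, 0)
    rw [Fintype.sum_prod_type] at h1
    rw [← h1]
    push_cast
    exact Finset.sum_congr rfl fun t' _ => hB0e t t'
  have hcolB : ∀ t', ∑ t, B 0 t t' = (k : OO) := by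
    intro t'
    have h1 := hcol (t', 0)
    rw [Fintype.sum_prod_type] at h1
    rw [← h1]
    push_cast
    refine Finset.sum_congr rfl fun t _ => ?_
    rw [hB0e]
    refine Fintype.sum_equiv (Equiv.neg (ZMod m)) _ _ fun d => ?_
    have h2 := core0_circ m A hA d t t' (-d) 0
    rw [neg_add_cancel, zero_add] at h2
    rw [h2]
    rfl
  have hkey : ∀ j : ZMod m, j ≠ 0 → ∃ α : OO, α ^ (2 ^ (c + 1)) = (n : OO) ^ (2 ^ c) ∧ φ α = φ (k : OO) ∧
      (B j).trace = (B 0).trace - (k : OO) + α := by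
    intro j hj
    refine hTR T q F φ n k (mu * m) c hq hq2 hn hqn (B 0) (B j) (hmap j) hrowB hcolB ?_ ?_
    · rw [hBpow, hsum', if_pos rfl]
      push_cast
      rfl
    · rw [hBpow, hsum', if_neg hj, mul_zero, zero_smul, add_zero]
  have : Fact (1 < m) := ⟨h1m⟩
  have h10 : (1 : ZMod m) ≠ 0 := one_ne_zero
  obtain ⟨α, hα1, hα2, hα3⟩ := hkey 1 h10
  have htr : ∀ j : ZMod m, j ≠ 0 → (B j).trace = (B 0).trace - (k : OO) + α := by
    intro j hj
    obtain ⟨β, hβ1, hβ2, hβ3⟩ := hkey j hj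
    rw [hβ3, hINJ q F φ n c hq hq2 hqn β α hβ1 hα1 (hβ2.trans hα2.symm)]
  -- the integer
  obtain ⟨c1, hc1⟩ : ∃ c1 : ℤ, c1 = ∑ t, A (t, 0) (t, 1) := ⟨_, rfl⟩
  have hL : ∑ j : ZMod m, ψ (-j) * (B j).trace = (m : OO) * (c1 : OO) := by
    have h1 : ∀ j, ψ (-j) * (B j).trace =
        ∑ t, ∑ d : ZMod m, ((A (t, 0) (t, d) : ℤ) : OO) * ψ (j * (d - 1)) := by
      intro j
      rw [Matrix.trace, Finset.mul_sum]
      refine Finset.sum_congr rfl fun t _ => ?_
      rw [Matrix.diag_apply, hBe, Finset.mul_sum]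
      refine Finset.sum_congr rfl fun d _ => ?_
      have h2 : j * (d - 1) = -j + j * d := by ring
      rw [h2, AddChar.map_add_eq_mul]
      ring
    rw [Finset.sum_congr rfl fun j _ => h1 j, Finset.sum_comm]
    have h3 : ∀ t, ∑ j : ZMod m, ∑ d : ZMod m, ((A (t, 0) (t, d) : ℤ) : OO) * ψ (j * (d - 1)) =
        ((A (t, 0) (t, 1) : ℤ) : OO) * (m : OO) := by
      intro t
      rw [Finset.sum_comm]
      rw [Finset.sum_eq_single (1 : ZMod m)]
      · rw [← Finset.mul_sum, hsum, if_pos (sub_self _)]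
      · intro d _ hd
        rw [← Finset.mul_sum, hsum, if_neg (sub_ne_zero.2 hd), mul_zero]
      · intro h
        exact absurd (Finset.mem_univ _) h
    rw [Finset.sum_congr rfl fun t _ => h3 t, ← Finset.sum_mul, hc1, mul_comm]
    push_cast
    rfl
  have hR : ∑ j : ZMod m, ψ (-j) * (B j).trace = (k : OO) - α := by
    have h1 : ∑ j : ZMod m, ψ (-j) = 0 := by
      have h2 := hsum' (-1)
      rw [if_neg (neg_ne_zero.2 h10)] at h2
      rw [← h2]
      exact Finset.sum_congr rfl fun j _ => by rw [neg_one_mul]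
    have h3 : ∀ j : ZMod m, ψ (-j) * (B j).trace =
        ψ (-j) * ((B 0).trace - (k : OO) + α) + (if j = 0 then (k : OO) - α else 0) := by
      intro j
      by_cases hj : j = 0
      · rw [if_pos hj, hj, neg_zero, AddChar.map_zero_eq_one]
        ring
      · rw [if_neg hj, htr j hj, add_zero]
    rw [Finset.sum_congr rfl fun j _ => h3 j, Finset.sum_add_distrib, ← Finset.sum_mul, h1, zero_mul, zero_add,
      Finset.sum_ite_eq' Finset.univ (0 : ZMod m), if_pos (Finset.mem_univ _)]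
  have hα4 : α = ((k - m * c1 : ℤ) : OO) := by
    have h1 : (k : OO) - α = (m : OO) * (c1 : OO) := hR.symm.trans hL
    push_cast
    rw [← h1]
    ring
  refine ⟨k - m * c1, ?_, ?_, ?_⟩
  · rw [hα4] at hα1
    have h1 : (k - m * c1) ^ (2 ^ (c + 1)) = n ^ (2 ^ c) := by
      have h2 : (((k - m * c1) ^ (2 ^ (c + 1)) : ℤ) : OO) = ((n ^ (2 ^ c) : ℤ) : OO) := by
        push_cast
        push_cast at hα1
        exact hα1
      exact Int.cast_injective h2
    rw [pow_succ 2 c, mul_comm (2 ^ c) 2, pow_mul] at h1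
    exact (pow_left_inj₀ (sq_nonneg _) hn.le (pow_pos (by norm_num) c).ne').1 h1
  · have h1 : q ∣ m := by
      rw [hm]
      refine dvd_pow_self q ?_
      intro h0
      rw [h0, pow_zero] at hm
      omega
    have h2 : k - (k - m * c1) = m * c1 := by ring
    rw [h2]
    exact Dvd.dvd.mul_right (by exact_mod_cast h1) _
  · rw [Fintype.sum_prod_type]
    have h1 : ∀ t : T, ∑ d : ZMod m, A (t, d) (t, d + 1) = (m : ℤ) * A (t, 0) (t, 1) := by
      intro t
      have h2 : ∀ d : ZMod m, A (t, d) (t, d + 1) = A (t, 0) (t, 1) := by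
        intro d
        have h3 := core0_circ m A hA d t t 0 1
        rwa [zero_add, add_comm 1 d] at h3
      rw [Finset.sum_congr rfl fun d _ => h2 d, Finset.sum_const, Finset.card_univ, ZMod.card, nsmul_eq_mul]
    have h4 : ∑ x : T, ∑ y : ZMod m, A (x, y) ((x, y).1, (x, y).2 + 1) = ∑ t : T, (m : ℤ) * A (t, 0) (t, 1) :=
      Finset.sum_congr rfl fun t _ => h1 t
    rw [h4, ← Finset.mul_sum, ← hc1]
    ring

end Pool.Agent.Helper85.CR
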