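import Pool.Agent.Helper17.CR.Stmts2

set_option autoImplicit false

namespace Pool.Agent.Helper17.CR

open Polynomial Finset

theorem wbd_one (W : Polynomial ℤ) (x m H : ℕ) (hW : W ≠ 0) (hx : 1 ≤ x)
    (hd : (X - C (x : ℤ)) ^ m ∣ W) (hc : ∀ i, |W.coeff i| ≤ (H : ℤ)) : x ^ m ≤ H := by
  obtain ⟨Q, rfl⟩ := hd
  have hQ : Q ≠ 0 := right_ne_zero_of_mul hW
  have h1 : (X - C (x : ℤ)).trailingCoeff = - (x : ℤ) := by
    have h2 : (X - C (x : ℤ)).natTrailingDegree = 0 := by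
      rw [natTrailingDegree_eq_zero]
      right
      simp only [coeff_sub, coeff_X_zero, coeff_C_zero, zero_sub, ne_eq, neg_eq_zero]
      exact_mod_cast (by omega : x ≠ 0)
    rw [trailingCoeff, h2]
    simp
  have h3 : ((X - C (x : ℤ)) ^ m * Q).trailingCoeff = (- (x : ℤ)) ^ m * Q.trailingCoeff := by
    rw [trailingCoeff_mul]
    congr 1
    have : ∀ k : ℕ, ((X - C (x : ℤ)) ^ k).trailingCoeff = (- (x : ℤ)) ^ k := by
      intro k
      induction k with
      | zero => simp [trailingCoeff]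
      | succ k ih => rw [pow_succ, trailingCoeff_mul, ih, h1, pow_succ]
    exact this m
  have h4 := hc ((X - C (x : ℤ)) ^ m * Q).natTrailingDegree
  rw [← trailingCoeff, h3, abs_mul, abs_pow, abs_neg] at h4
  have h5 : 1 ≤ |Q.trailingCoeff| := by
    have : Q.trailingCoeff ≠ 0 := by
      rw [ne_eq, trailingCoeff_eq_zero]; exact hQ
    exact Int.one_le_abs this
  have h6 : |(x : ℤ)| = x := abs_of_nonneg (by positivity)
  rw [h6] at h4
  have h7 : (x : ℤ) ^ m ≤ H := by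
    have : (0 : ℤ) ≤ (x : ℤ) ^ m := by positivity
    nlinarith
  exact_mod_cast h7

theorem wbd_mul (p q : Polynomial ℤ) (d : ℕ) (A B : ℤ) (hA : 0 ≤ A) (hB : 0 ≤ B)
    (hd : p.natDegree ≤ d) (hp : ∀ i, |p.coeff i| ≤ A) (hq : ∀ i, |q.coeff i| ≤ B) (i : ℕ) :
    |(p * q).coeff i| ≤ (d + 1) * A * B := by
  rw [coeff_mul, Finset.Nat.sum_antidiagonal_eq_sum_range_succ
    (fun a b => p.coeff a * q.coeff b)]
  have h1 : ∑ k ∈ range (i + 1), p.coeff k * q.coeff (i - k) =
      ∑ k ∈ (range (i + 1)).filter (fun k => k ≤ d), p.coeff k * q.coeff (i - k) := by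
    symm
    apply Finset.sum_filter_of_ne
    intro k _ hk
    by_contra h
    apply hk
    rw [coeff_eq_zero_of_natDegree_lt (by omega), zero_mul]
  rw [h1]
  calc |∑ k ∈ (range (i + 1)).filter (fun k => k ≤ d), p.coeff k * q.coeff (i - k)|
      ≤ ∑ k ∈ (range (i + 1)).filter (fun k => k ≤ d), |p.coeff k * q.coeff (i - k)| :=
        Finset.abs_sum_le_sum_abs _ _
    _ ≤ ∑ _k ∈ (range (i + 1)).filter (fun k => k ≤ d), A * B := by
        apply Finset.sum_le_sum
        intro k _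
        rw [abs_mul]
        exact mul_le_mul (hp k) (hq _) (abs_nonneg _) hA
    _ = (((range (i + 1)).filter (fun k => k ≤ d)).card : ℤ) * (A * B) := by
        rw [Finset.sum_const, nsmul_eq_mul]
    _ ≤ ((d : ℤ) + 1) * (A * B) := by
        apply mul_le_mul_of_nonneg_right _ (mul_nonneg hA hB)
        have : ((range (i + 1)).filter (fun k => k ≤ d)).card ≤ (range (d + 1)).card := by
          apply Finset.card_le_card
          intro k hk
          rw [Finset.mem_filter] at hk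
          rw [Finset.mem_range]
          omega
        rw [Finset.card_range] at this
        exact_mod_cast this
    _ = (d + 1) * A * B := by ring

theorem wbd_prod (ι : Type) [DecidableEq ι] (s : Finset ι) (f : ι → Polynomial ℤ) (d : ℕ) (A : ℤ)
    (hA : 0 ≤ A) (hd : ∀ j, (f j).natDegree ≤ d) (hf : ∀ j i, |(f j).coeff i| ≤ A) :
    ∀ i, |(∏ j ∈ s, f j).coeff i| ≤ ((d + 1) * A) ^ s.card := by
  induction s using Finset.induction_on with
  | empty =>
    intro i
    rw [Finset.prod_empty, Finset.card_empty, pow_zero, coeff_one]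
    split_ifs <;> simp
  | insert a s ha ih =>
    intro i
    rw [Finset.prod_insert ha, Finset.card_insert_of_notMem ha, pow_succ]
    have h := wbd_mul (f a) (∏ j ∈ s, f j) d A (((d + 1) * A) ^ s.card) hA (by positivity)
      (hd a) (hf a) ih i
    calc _ ≤ _ := h
      _ = _ := by ring

theorem wbd_hasse (F : Polynomial ℤ) (r k : ℕ) (A : ℤ) (hA : 0 ≤ A)
    (hd : F.natDegree ≤ 10 * r) (hF : ∀ i, |F.coeff i| ≤ A) :
    (hasseDeriv k F).natDegree ≤ 10 * r ∧ ∀ i, |(hasseDeriv k F).coeff i| ≤ 2 ^ (10 * r) * A := by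
  refine ⟨(natDegree_hasseDeriv_le F k).trans (by omega), fun i => ?_⟩
  rw [hasseDeriv_coeff]
  by_cases h : i + k ≤ 10 * r
  · rw [abs_mul]
    apply mul_le_mul _ (hF _) (abs_nonneg _) (by positivity)
    have h1 : (i + k).choose k ≤ 2 ^ (i + k) := Nat.choose_le_two_pow _ _
    have h2 : 2 ^ (i + k) ≤ 2 ^ (10 * r) := Nat.pow_le_pow_right (by norm_num) h
    rw [Nat.abs_cast]
    exact_mod_cast h1.trans h2
  · rw [coeff_eq_zero_of_natDegree_lt (by omega), mul_zero, abs_zero]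
    positivity

theorem wbd_two (c : ℕ) (hc : 1 ≤ c) : ∃ C' : ℕ, 1 ≤ C' ∧
    ∀ (r n : ℕ) (F : Fin n → Polynomial ℤ), 1 ≤ r → n ≤ 3 →
    (∀ j, (F j).natDegree ≤ 10 * r) → (∀ j i, |(F j).coeff i| ≤ (c : ℤ) ^ r) →
    ∀ i, |(Matrix.of fun i j : Fin n => Polynomial.hasseDeriv (i : ℕ) (F j)).det.coeff i| ≤
      (C' : ℤ) ^ r := by
  refine ⟨6 * (2 ^ 20 * c) ^ 3, Nat.one_le_iff_ne_zero.mpr (by positivity), ?_⟩
  intro r n F hr hn hd hF i
  set M : Matrix (Fin n) (Fin n) (Polynomial ℤ) :=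
    Matrix.of fun i j : Fin n => Polynomial.hasseDeriv (i : ℕ) (F j) with hM
  have hA : (0 : ℤ) ≤ (c : ℤ) ^ r := by positivity
  have hB : (0 : ℤ) ≤ 2 ^ (10 * r) * (c : ℤ) ^ r := by positivity
  have hM1 : ∀ a b, (M a b).natDegree ≤ 10 * r := fun a b =>
    (wbd_hasse (F b) r a _ hA (hd b) (hF b)).1
  have hM2 : ∀ a b i, |(M a b).coeff i| ≤ 2 ^ (10 * r) * (c : ℤ) ^ r := fun a b =>
    (wbd_hasse (F b) r a _ hA (hd b) (hF b)).2
  have hT : (1 : ℤ) ≤ ((10 * r : ℕ) + 1) * (2 ^ (10 * r) * (c : ℤ) ^ r) := by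
    have h1 : (1 : ℤ) ≤ ((10 * r : ℕ) : ℤ) + 1 := by
      have : (0 : ℤ) ≤ ((10 * r : ℕ) : ℤ) := by positivity
      linarith
    have h2 : (1 : ℤ) ≤ 2 ^ (10 * r) := one_le_pow₀ (by norm_num)
    have h3 : (1 : ℤ) ≤ (c : ℤ) ^ r := one_le_pow₀ (by exact_mod_cast hc)
    exact one_le_mul_of_one_le_of_one_le h1 (one_le_mul_of_one_le_of_one_le h2 h3)
  rw [Matrix.det_apply, finsetSum_coeff]
  calc |∑ σ : Equiv.Perm (Fin n), (Equiv.Perm.sign σ • ∏ a, M (σ a) a).coeff i|
      ≤ ∑ σ : Equiv.Perm (Fin n), |(Equiv.Perm.sign σ • ∏ a, M (σ a) a).coeff i| :=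
        Finset.abs_sum_le_sum_abs _ _
    _ ≤ ∑ _σ : Equiv.Perm (Fin n),
        (((10 * r : ℕ) + 1) * (2 ^ (10 * r) * (c : ℤ) ^ r)) ^ 3 := by
        apply Finset.sum_le_sum
        intro σ _
        have h1 := wbd_prod (Fin n) Finset.univ (fun a => M (σ a) a) (10 * r)
          (2 ^ (10 * r) * (c : ℤ) ^ r) hB (fun a => hM1 _ _) (fun a => hM2 _ _) i
        have h2 : |(Equiv.Perm.sign σ • ∏ a, M (σ a) a).coeff i| =
            |(∏ a, M (σ a) a).coeff i| := by
          rcases Int.units_eq_one_or (Equiv.Perm.sign σ) with h | h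
          · rw [h, one_smul]
          · rw [h]
            simp
        rw [h2]
        refine h1.trans ?_
        rw [Finset.card_univ, Fintype.card_fin]
        exact pow_le_pow_right₀ hT hn
    _ = (n.factorial : ℤ) * (((10 * r : ℕ) + 1) * (2 ^ (10 * r) * (c : ℤ) ^ r)) ^ 3 := by
        rw [Finset.sum_const, nsmul_eq_mul, Finset.card_univ, Fintype.card_perm,
          Fintype.card_fin]
    _ ≤ 6 ^ r * ((2 ^ (10 * r)) * (2 ^ (10 * r) * (c : ℤ) ^ r)) ^ 3 := by
        have h1 : (n.factorial : ℤ) ≤ 6 ^ r := by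
          have h2 : n.factorial ≤ 6 := (Nat.factorial_le hn).trans (by decide)
          have h3 : (6 : ℕ) ≤ 6 ^ r := by
            calc 6 = 6 ^ 1 := by norm_num
              _ ≤ 6 ^ r := Nat.pow_le_pow_right (by norm_num) hr
          exact_mod_cast h2.trans h3
        have h4 : (((10 * r : ℕ) : ℤ) + 1) ≤ 2 ^ (10 * r) := by
          have : 10 * r + 1 ≤ 2 ^ (10 * r) := Nat.lt_two_pow_self
          exact_mod_cast this
        apply mul_le_mul h1 _ (by positivity) (by positivity)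
        apply pow_le_pow_left₀ (by positivity)
        exact mul_le_mul_of_nonneg_right h4 hB
    _ = ((6 * (2 ^ 20 * c) ^ 3 : ℕ) : ℤ) ^ r := by
        have h1 : ((6 * (2 ^ 20 * c) ^ 3 : ℕ) : ℤ) =
            6 * ((2 ^ 10) * ((2 ^ 10) * (c : ℤ))) ^ 3 := by
          push_cast
          ring
        rw [h1, mul_pow 6, ← pow_mul _ 3 r, mul_comm 3 r, pow_mul _ r 3, mul_pow (2 ^ 10 : ℤ),
          mul_pow (2 ^ 10 : ℤ), ← pow_mul]

theorem st_WBD : ST_WBD := ⟨wbd_one, wbd_two⟩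

end Pool.Agent.Helper17.CR
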